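import Pool.Agent.K7.H1.DM.Defs
import Pool.Agent.K7.H1.DL.Fin

/-!
# From motives in coordinates to motives
-/

set_option autoImplicit false
set_option linter.unusedSectionVars false

namespace Pool.Agent.K7.H1.DM

open scoped TensorProduct
open Module Filter Topology
open Pool.Agent.H541R3.ART Pool.Agent.R389 Pool.Agent.W446.AS

section theta

variable {d : ℕ}

/-- coordinates of `ℂ ⊗ ℚ^d` -/
noncomputable def thC (d : ℕ) : ℂ ⊗[ℚ] (Fin d → ℚ) ≃ₗ[ℂ] (Fin d → ℂ) :=
  TensorProduct.piScalarRight ℚ ℂ ℂ (Fin d)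

lemma thC_tmul (z : ℂ) (v : Fin d → ℚ) : thC d (z ⊗ₜ v) = fun k => z * (v k : ℂ) := by
  funext k
  rw [thC, TensorProduct.piScalarRight_apply, TensorProduct.piScalarRightHom_tmul]
  change v k • z = _
  rw [Rat.smul_def, mul_comm]

/-- coordinates of `E ⊗ ℚ^d` -/
noncomputable def thE (E : Type) [Field E] [CharZero E] (d : ℕ) :
    E ⊗[ℚ] (Fin d → ℚ) ≃ₗ[E] (Fin d → E) :=
  TensorProduct.piScalarRight ℚ E E (Fin d)

lemma thE_tmul {E : Type} [Field E] [CharZero E] (z : E) (v : Fin d → ℚ) :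
    thE E d (z ⊗ₜ v) = fun k => z * (v k : E) := by
  funext k
  rw [thE, TensorProduct.piScalarRight_apply, TensorProduct.piScalarRightHom_tmul]
  change v k • z = _
  rw [Rat.smul_def, mul_comm]

lemma thC_conj (x : ℂ ⊗[ℚ] (Fin d → ℚ)) : thC d (DL.conjC _ x) = conj (thC d x) := by
  induction x using TensorProduct.induction_on with
  | zero =>
    rw [map_zero, map_zero]
    funext k
    simp [conj]
  | tmul z v =>
    rw [DL.conjC, LinearMap.rTensor_tmul, thC_tmul, thC_tmul]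
    funext k
    simp [conj]
  | add a b ha hb =>
    rw [map_add, map_add, ha, hb, map_add]
    funext k
    simp [conj]

lemma thC_map (A : Matrix (Fin d) (Fin d) ℚ) (x : ℂ ⊗[ℚ] (Fin d → ℚ)) :
    thC d ((Matrix.toLin' A).baseChange ℂ x) = (A.map (fun q => (q : ℂ))).mulVec (thC d x) := by
  induction x using TensorProduct.induction_on with
  | zero => simp
  | tmul z v =>
    rw [LinearMap.baseChange_tmul, thC_tmul, thC_tmul]
    funext k
    rw [Matrix.toLin'_apply, Matrix.mulVec, Matrix.mulVec, dotProduct, dotProduct]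
    push_cast
    rw [Finset.mul_sum]
    refine Finset.sum_congr rfl fun l _ => ?_
    rw [Matrix.map_apply]
    ring
  | add a b ha hb => rw [map_add, map_add, ha, hb, map_add, Matrix.mulVec_add]

lemma thE_map {E : Type} [Field E] [CharZero E] (A : Matrix (Fin d) (Fin d) ℚ)
    (x : E ⊗[ℚ] (Fin d → ℚ)) (k : Fin d) :
    thE E d ((Matrix.toLin' A).baseChange E x) k = ∑ l, (A k l : E) * thE E d x l := by
  induction x using TensorProduct.induction_on with
  | zero => simp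
  | tmul z v =>
    rw [LinearMap.baseChange_tmul, thE_tmul, thE_tmul]
    simp only [Matrix.toLin'_apply, Matrix.mulVec, dotProduct]
    push_cast
    rw [Finset.mul_sum]
    refine Finset.sum_congr rfl fun l _ => ?_
    ring
  | add a b ha hb =>
    rw [map_add, map_add, Pi.add_apply, ha, hb, ← Finset.sum_add_distrib, map_add]
    refine Finset.sum_congr rfl fun l _ => ?_
    rw [Pi.add_apply, mul_add]

lemma thC_rT {E : Type} [Field E] [CharZero E] (τ : E →+* ℂ) (x : E ⊗[ℚ] (Fin d → ℚ)) :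
    thC d (τ.toRatAlgHom.toLinearMap.rTensor _ x) = fun k => τ (thE E d x k) := by
  induction x using TensorProduct.induction_on with
  | zero =>
    funext k
    simp
  | tmul z v =>
    rw [LinearMap.rTensor_tmul, thC_tmul, thE_tmul]
    funext k
    rw [map_mul, map_ratCast]
    rfl
  | add a b ha hb =>
    rw [map_add, map_add, ha, hb]
    funext k
    rw [map_add, Pi.add_apply, Pi.add_apply, map_add]

end theta

/-- complexification of subspaces -/
lemma mem_FilC (M : Realizations) (p : ℤ) (y : ℂ ⊗[ℚ] (Fin M.d → ℚ)) :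
    y ∈ (M.Fil p).baseChange ℂ ↔ thC M.d y ∈ M.FilC p := by
  have h1 : ((M.Fil p).baseChange ℂ).map (thC M.d : _ →ₗ[ℂ] (Fin M.d → ℂ)) = M.FilC p := by
    rw [Submodule.baseChange_eq_span, Submodule.map_span, Realizations.FilC]
    congr 1
    ext x
    constructor
    · rintro ⟨_, ⟨v, hv, rfl⟩, rfl⟩
      refine ⟨v, hv, ?_⟩
      change thC M.d ((1 : ℂ) ⊗ₜ v) = _
      rw [thC_tmul]
      simp
    · rintro ⟨v, hv, rfl⟩
      refine ⟨_, ⟨v, hv, rfl⟩, ?_⟩
      change thC M.d ((1 : ℂ) ⊗ₜ v) = _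
      rw [thC_tmul]
      simp
  rw [← h1]
  constructor
  · intro hy
    exact ⟨y, hy, rfl⟩
  · rintro ⟨z, hz, hzy⟩
    have : z = y := (thC M.d).injective hzy
    rw [← this]
    exact hz

/-- the comparison isomorphism -/
noncomputable def Icomp (M : Motive) :
    ℂ ⊗[ℚ] (Fin M.d → ℚ) ≃ₗ[ℂ] ℂ ⊗[ℚ] (Fin M.d → ℚ) :=
  (thC M.d).trans ((LinearEquiv.ofBijective M.I.mulVecLin M.bijective).trans (thC M.d).symm)

lemma thC_Icomp (M : Motive) (x : ℂ ⊗[ℚ] (Fin M.d → ℚ)) :
    thC M.d (Icomp M x) = M.comparison (thC M.d x) := by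
  rw [Icomp, LinearEquiv.trans_apply, LinearEquiv.trans_apply, LinearEquiv.apply_symm_apply]
  rfl

/-- the Hodge decomposition -/
noncomputable def HH' (M : Motive) (p : ℤ) : Submodule ℂ (ℂ ⊗[ℚ] (Fin M.d → ℚ)) :=
  (M.H p).map ((thC M.d).symm : (Fin M.d → ℂ) →ₗ[ℂ] _)

lemma mem_map_th {d : ℕ} (U : Submodule ℂ (Fin d → ℂ)) (x : ℂ ⊗[ℚ] (Fin d → ℚ)) :
    x ∈ U.map ((thC d).symm : (Fin d → ℂ) →ₗ[ℂ] _) ↔ thC d x ∈ U := by
  constructor
  · rintro ⟨y, hy, rfl⟩
    change thC d ((thC d).symm y) ∈ U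
    rw [LinearEquiv.apply_symm_apply]
    exact hy
  · intro h
    exact ⟨_, h, (thC d).symm_apply_apply x⟩

lemma mem_HH' (M : Motive) (p : ℤ) (x : ℂ ⊗[ℚ] (Fin M.d → ℚ)) :
    x ∈ HH' M p ↔ thC M.d x ∈ M.H p := mem_map_th _ _

lemma internal_HH' (M : Motive) : DirectSum.IsInternal (HH' M) := by
  have h := M.internal
  rw [DirectSum.isInternal_submodule_iff_iSupIndep_and_iSup_eq_top] at h ⊢
  refine ⟨?_, ?_⟩
  · exact h.1.map_orderIso (Submodule.orderIsoMapComap (thC M.d).symm)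
  · unfold HH'
    rw [← Submodule.map_iSup, h.2, Submodule.map_top, LinearEquiv.range]

/-- the motive without coordinates -/
noncomputable def toDL (M : Motive) : DL.Motive where
  w := M.w
  B := Fin M.d → ℚ
  D := Fin M.d → ℚ
  frob := Matrix.toLin' M.frob
  frob_frob := by
    intro b
    rw [← Matrix.toLin'_mul_apply, M.frob_frob, Matrix.toLin'_one]
    rfl
  H := HH' M
  internal := internal_HH' M
  H_frob := by
    intro p x hx
    rw [mem_HH'] at hx ⊢
    rw [thC_map]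
    exact M.H_frob p _ hx
  H_conj := by
    intro p x hx
    rw [mem_HH'] at hx ⊢
    rw [thC_conj]
    exact M.H_conj p _ hx
  Fil := M.Fil
  I := Icomp M
  I_fil := by
    intro p
    have h1 : (⨆ q : {q : ℤ // p ≤ q}, HH' M q)
        = (M.F p).map ((thC M.d).symm : (Fin M.d → ℂ) →ₗ[ℂ] _) := by
      rw [Realizations.F, Submodule.map_iSup]
      rfl
    ext y
    rw [mem_FilC]
    constructor
    · rintro ⟨x, hx, rfl⟩
      rw [SetLike.mem_coe, h1, mem_map_th] at hx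
      change thC M.d (Icomp M x) ∈ _
      rw [thC_Icomp]
      exact (M.filtration p _).mpr hx
    · intro hy
      obtain ⟨x, rfl⟩ := (Icomp M).surjective y
      refine ⟨x, ?_, rfl⟩
      rw [SetLike.mem_coe, h1, mem_map_th]
      rw [thC_Icomp] at hy
      exact (M.filtration p _).mp hy
  I_conj := by
    intro x
    apply (thC M.d).injective
    rw [thC_Icomp, thC_conj, thC_map, thC_conj, thC_Icomp]
    exact M.conjugation _

lemma toDL_critical {M : Motive} (hM : M.Critical) : (toDL M).Critical := by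
  have h : ∀ p, (toDL M).H p ≠ ⊥ → M.H p ≠ ⊥ := by
    intro p h1 h2
    apply h1
    change (M.H p).map _ = ⊥
    rw [h2, Submodule.map_bot]
  exact ⟨fun p hp => hM.offDiagonal p (h p hp), fun p hp => hM.critical p (h p hp)⟩

/-- bases of subspaces -/
lemma isBasisOf_iff {E Y Y' κ : Type} [Field E] [AddCommGroup Y] [Module E Y] [AddCommGroup Y']
    [Module E Y'] (e : Y ≃ₗ[E] Y') {p : Y' → Prop} {W : Submodule E Y}
    (hp : ∀ y, p (e y) ↔ y ∈ W) {a : κ → Y'} :
    IsBasisOf E p a ↔ ∃ β : Basis κ E W, ∀ k, e (β k : Y) = a k := by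
  constructor
  · rintro ⟨h1, h2, h3⟩
    let w : κ → W := fun k => ⟨e.symm (a k), (hp _).mp (by
      rw [LinearEquiv.apply_symm_apply]; exact h1 k)⟩
    have h4 : LinearIndependent E w := by
      refine LinearIndependent.of_comp ((e : Y →ₗ[E] Y') ∘ₗ W.subtype) ?_
      have h5 : ((e : Y →ₗ[E] Y') ∘ₗ W.subtype) ∘ w = a := by
        funext k
        exact e.apply_symm_apply (a k)
      rw [h5]
      exact h2
    have h5 : ⊤ ≤ Submodule.span E (Set.range w) := by
      rintro ⟨x, hx⟩ _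
      have h6 := h3 (e x) ((hp x).mpr hx)
      have h7 : Submodule.span E (Set.range a)
          = (Submodule.span E (Set.range w)).map ((e : Y →ₗ[E] Y') ∘ₗ W.subtype) := by
        rw [Submodule.map_span, ← Set.range_comp]
        congr 2
        funext k
        exact (e.apply_symm_apply (a k)).symm
      rw [h7] at h6
      obtain ⟨y, hy, hyx⟩ := h6
      have : y = ⟨x, hx⟩ := Subtype.ext (e.injective hyx)
      rw [← this]
      exact hy
    refine ⟨Basis.mk h4 h5, fun k => ?_⟩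
    rw [Basis.mk_apply]
    exact e.apply_symm_apply (a k)
  · rintro ⟨β, hβ⟩
    have h1 : a = fun k => e (β k : Y) := funext fun k => (hβ k).symm
    subst h1
    refine ⟨fun k => (hp _).mpr (β k).2, ?_, fun y hy => ?_⟩
    · have h2 := β.linearIndependent.map' ((e : Y →ₗ[E] Y') ∘ₗ W.subtype) (by
        rw [LinearMap.ker_comp, LinearEquiv.ker, Submodule.comap_bot, Submodule.ker_subtype])
      exact h2
    · obtain ⟨x, rfl⟩ := e.surjective y
      have h3 : (⟨x, (hp x).mp hy⟩ : W) ∈ Submodule.span E (Set.range β) := by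
        rw [β.span_eq]
        trivial
      have h4 := Submodule.mem_map_of_mem (f := (e : Y →ₗ[E] Y') ∘ₗ W.subtype) h3
      rw [Submodule.map_span, ← Set.range_comp] at h4
      exact h4

/-- bases modulo subspaces -/
lemma isBasisMod_iff {d h : ℕ} {U : Submodule ℚ (Fin d → ℚ)} {t : Fin h → Fin d → ℚ} :
    IsBasisMod U t ↔ ∃ T : Basis (Fin h) ℚ ((Fin d → ℚ) ⧸ U), ∀ k, T k = U.mkQ (t k) := by
  constructor
  · intro ht
    have h1 : LinearIndependent ℚ (fun k => U.mkQ (t k)) := by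
      rw [Fintype.linearIndependent_iff]
      intro r hr
      obtain ⟨s, -, hs⟩ := ht 0
      have h2 : (0 : Fin d → ℚ) - ∑ k, (-r) k • t k ∈ U := by
        have h3 : (0 : Fin d → ℚ) - ∑ k, (-r) k • t k = ∑ k, r k • t k := by
          simp
        rw [h3, ← Submodule.Quotient.mk_eq_zero]
        change U.mkQ _ = 0
        rw [map_sum]
        simpa only [map_smul] using hr
      have h3 : (0 : Fin d → ℚ) - ∑ k, (0 : Fin h → ℚ) k • t k ∈ U := by simp
      have h4 := (hs _ h2).trans (hs _ h3).symm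
      intro k
      have h5 := congrFun h4 k
      simpa using h5
    have h2 : ⊤ ≤ Submodule.span ℚ (Set.range fun k => U.mkQ (t k)) := by
      intro y _
      obtain ⟨v, rfl⟩ := U.mkQ_surjective y
      obtain ⟨r, hr, -⟩ := ht v
      have h3 : U.mkQ v = ∑ k, r k • U.mkQ (t k) := by
        have h4 : U.mkQ (v - ∑ k, r k • t k) = 0 := (Submodule.Quotient.mk_eq_zero U).mpr hr
        rw [map_sub, sub_eq_zero, map_sum] at h4
        simpa only [map_smul] using h4
      rw [h3]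
      exact Submodule.sum_mem _ fun k _ => Submodule.smul_mem _ _ (Submodule.subset_span ⟨k, rfl⟩)
    exact ⟨Basis.mk h1 h2, fun k => by rw [Basis.mk_apply]⟩
  · rintro ⟨T, hT⟩ v
    have h1 : ∀ r : Fin h → ℚ, v - ∑ k, r k • t k ∈ U ↔ U.mkQ v = ∑ k, r k • T k := by
      intro r
      rw [← Submodule.Quotient.mk_eq_zero]
      change U.mkQ _ = 0 ↔ _
      rw [map_sub, sub_eq_zero, map_sum]
      simp only [map_smul, hT]
    refine ⟨fun k => T.repr (U.mkQ v) k, ?_, fun r hr => ?_⟩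
    · simp only
      rw [h1]
      exact (T.sum_repr _).symm
    · have hr' : v - ∑ k, r k • t k ∈ U := hr
      rw [h1] at hr'
      funext k
      simp only [hr']
      exact (congrFun (T.repr_sum_self r) k).symm

section

variable {F : Type} [Field F] [NumberField F] {E : Type} [Field E] [CharZero E] {n : ℕ}

lemma mat_eq (ρ : Representation E (GQ F) (Fin n → E)) (g : GQ F) (i j : Fin n) :
    mat ρ g i j = LinearMap.toMatrix' (ρ g) i j := by
  rw [LinearMap.toMatrix'_apply]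
  rfl

lemma gal_eq (g : GQ F) (a : E ⊗[ℚ] F) : gal g a = DL.galT E g a := by
  rw [gal]
  induction a using TensorProduct.induction_on with
  | zero => simp
  | tmul z x => rw [DL.galT_tmul, LinearMap.lTensor_tmul]; rfl
  | add a b ha hb => rw [map_add, map_add, ha, hb]

lemma deRham_iff (ρ : Representation E (GQ F) (Fin n → E)) (a : Fin n → E ⊗[ℚ] F) :
    DeRham ρ a ↔ a ∈ DL.dRArt ρ := by
  refine forall_congr' fun g => ?_
  rw [funext_iff]
  refine forall_congr' fun i => ?_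
  have h1 : act ρ g a i = ∑ j, LinearMap.toMatrix' (ρ g) i j • DL.galT E g (a j) := by
    refine Finset.sum_congr rfl fun j _ => ?_
    rw [mat_eq, gal_eq]
  rw [h1]

/-- coordinates of `E^n ⊗ ℚ^d` -/
noncomputable def thn (E : Type) [Field E] [CharZero E] (n d : ℕ) :
    (Fin n → E ⊗[ℚ] (Fin d → ℚ)) ≃ₗ[E] (Fin n → Fin d → E) :=
  LinearEquiv.piCongrRight fun _ => thE E d

lemma betti_aux {d : ℕ} (A : Matrix (Fin d) (Fin d) ℚ) (R : Fin n → E)
    (x : Fin n → E ⊗[ℚ] (Fin d → ℚ)) (k : Fin d) :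
    thE E d (∑ j, R j • (Matrix.toLin' A).baseChange E (x j)) k
      = ∑ j, ∑ l, R j * (A k l : E) * thn E n d x j l := by
  rw [map_sum, Finset.sum_apply]
  refine Finset.sum_congr rfl fun j _ => ?_
  rw [map_smul, Pi.smul_apply, smul_eq_mul, thE_map A (x j) k, Finset.mul_sum]
  refine Finset.sum_congr rfl fun l _ => ?_
  rw [mul_assoc]
  rfl

lemma betti_iff (M : Motive) (c : GQ F) (ρ : Representation E (GQ F) (Fin n → E))
    (x : Fin n → E ⊗[ℚ] (Fin M.d → ℚ)) :
    BettiPlus M c ρ (thn E n M.d x) ↔ x ∈ DL.bPlus (toDL M) c ρ := by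
  refine forall_congr' fun i => ?_
  have key : ∀ S y : E ⊗[ℚ] (Fin M.d → ℚ), (∀ k, thE E M.d S k = thE E M.d y k) ↔ S = y := by
    intro S y
    rw [← (thE E M.d).injective.eq_iff, funext_iff]
  refine (forall_congr' fun k => ?_).trans (key _ _)
  have h1 : thE E M.d (∑ j, mat ρ c i j • (Matrix.toLin' M.frob).baseChange E (x j)) k
      = ∑ j, ∑ l, mat ρ c i j * (M.frob k l : E) * thn E n M.d x j l := betti_aux _ _ _ _
  simp only [mat_eq] at h1
  have h2 : (∑ j, ∑ l, mat ρ c i j * (M.frob k l : E) * thn E n M.d x j l)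
      = ∑ j, ∑ l, LinearMap.toMatrix' (ρ c) i j * (M.frob k l : E) * thn E n M.d x j l := by
    simp only [mat_eq]
  exact ⟨fun h => h1.trans (h2.symm.trans h), fun h => h2.trans (h1.symm.trans h)⟩

lemma ev_eq (τ : E →+* ℂ) (ι : F →+* ℂ) (a : E ⊗[ℚ] F) : ev τ ι a = DL.evT τ ι a := rfl

lemma matrix_iff {h : ℕ} (M : Motive) (ι : F →+* ℂ) (τ : E →+* ℂ)
    (b : Fin n × Fin h → Fin n → E ⊗[ℚ] (Fin M.d → ℚ)) (a : Fin n → Fin n → E ⊗[ℚ] F)
    (t : Fin h → Fin M.d → ℚ) (C : Matrix (Fin n × Fin h) (Fin n × Fin h) ℂ) :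
    IsMatrix M ι τ (fun p => thn E n M.d (b p)) a t C ↔
      ∀ p i, (toDL M).IT (τ.toRatAlgHom.toLinearMap.rTensor (Fin M.d → ℚ) (b p i))
        = ∑ q, C p q • (DL.evT τ ι (a q.1 i) ⊗ₜ[ℚ] (M.Fil 0).mkQ (t q.2)) := by
  refine forall_congr' fun p => forall_congr' fun i => ?_
  have h1 : (∑ q, C p q • (DL.evT τ ι (a q.1 i) ⊗ₜ[ℚ] (M.Fil 0).mkQ (t q.2)) :
      ℂ ⊗[ℚ] ((Fin M.d → ℚ) ⧸ M.Fil 0)) = ((M.Fil 0).mkQ.baseChange ℂ)
        (∑ q, C p q • (DL.evT τ ι (a q.1 i) ⊗ₜ[ℚ] t q.2)) := by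
    rw [map_sum]
    refine Finset.sum_congr rfl fun q _ => ?_
    rw [map_smul, LinearMap.baseChange_tmul]
  have h2 : (toDL M).IT (τ.toRatAlgHom.toLinearMap.rTensor (Fin M.d → ℚ) (b p i))
      = ((M.Fil 0).mkQ.baseChange ℂ) (Icomp M (τ.toRatAlgHom.toLinearMap.rTensor
        (Fin M.d → ℚ) (b p i))) := rfl
  have h3 : thC M.d (Icomp M (τ.toRatAlgHom.toLinearMap.rTensor (Fin M.d → ℚ) (b p i))
      - ∑ q, C p q • (DL.evT τ ι (a q.1 i) ⊗ₜ[ℚ] t q.2))
      = fun k => M.comparison (fun l => τ (thn E n M.d (b p) i l)) k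
        - ∑ q, C p q * ev τ ι (a q.1 i) * (t q.2 k : ℂ) := by
    rw [map_sub, thC_Icomp, thC_rT, map_sum]
    funext k
    rw [Pi.sub_apply, Finset.sum_apply]
    congr 1
    refine Finset.sum_congr rfl fun q _ => ?_
    rw [map_smul, thC_tmul, Pi.smul_apply, smul_eq_mul, ← mul_assoc]
    rfl
  have h4 : ((toDL M).IT (τ.toRatAlgHom.toLinearMap.rTensor (Fin M.d → ℚ) (b p i))
      = ∑ q, C p q • (DL.evT τ ι (a q.1 i) ⊗ₜ[ℚ] (M.Fil 0).mkQ (t q.2))) ↔
      Icomp M (τ.toRatAlgHom.toLinearMap.rTensor (Fin M.d → ℚ) (b p i))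
      - ∑ q, C p q • (DL.evT τ ι (a q.1 i) ⊗ₜ[ℚ] t q.2) ∈ (M.Fil 0).baseChange ℂ := by
    rw [← DL.ker_mkQ_baseChange, LinearMap.mem_ker, map_sub, sub_eq_zero, ← h1, ← h2]
    exact Iff.rfl
  rw [h4, mem_FilC, h3]

/-- **Periods.** -/
theorem isPeriod_iff (M : Motive) (ι : F →+* ℂ) (c : GQ F)
    (ρ : Representation E (GQ F) (Fin n → E)) (x : (E →+* ℂ) → ℂ) :
    IsPeriod M ι c ρ x ↔ DL.IsPeriod (toDL M) ι c ρ x := by
  constructor
  · rintro ⟨h, b, a, t, hb, ha, ht, hC⟩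
    obtain ⟨β, hβ⟩ := (isBasisOf_iff (thn E n M.d) (W := DL.bPlus (toDL M) c ρ)
      (betti_iff M c ρ)).mp hb
    obtain ⟨α, hα⟩ := (isBasisOf_iff (LinearEquiv.refl E _) (W := DL.dRArt ρ)
      (deRham_iff ρ)).mp ha
    obtain ⟨T, hT⟩ := isBasisMod_iff.mp ht
    refine ⟨h, β, α, T, fun τ => ?_⟩
    obtain ⟨C, h1, h2⟩ := hC τ
    refine ⟨C, ?_, h2⟩
    have h3 : b = fun p => thn E n M.d (β p : Fin n → E ⊗[ℚ] (Fin M.d → ℚ)) :=
      funext fun p => (hβ p).symm
    have h4 : a = fun k => (α k : Fin n → E ⊗[ℚ] F) := funext fun k => (hα k).symm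
    rw [h3, h4, matrix_iff] at h1
    intro p i
    refine (h1 p i).trans (Finset.sum_congr rfl fun q _ => ?_)
    exact congrArg (fun z => C p q • (DL.evT τ ι ((α q.1 : Fin n → E ⊗[ℚ] F) i) ⊗ₜ[ℚ] z))
      (hT q.2).symm
  · rintro ⟨h, β, α, T, hC⟩
    choose t ht using fun k => (M.Fil 0).mkQ_surjective (T k)
    refine ⟨h, fun p => thn E n M.d (β p).1, fun k => (α k).1, t,
      (isBasisOf_iff (thn E n M.d) (W := DL.bPlus (toDL M) c ρ)
        (betti_iff M c ρ)).mpr ⟨β, fun _ => rfl⟩,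
      (isBasisOf_iff (LinearEquiv.refl E _) (W := DL.dRArt ρ) (deRham_iff ρ)).mpr
        ⟨α, fun _ => rfl⟩, isBasisMod_iff.mpr ⟨T, fun k => (ht k).symm⟩, fun τ => ?_⟩
    obtain ⟨C, h1, h2⟩ := hC τ
    refine ⟨C, ?_, h2⟩
    rw [matrix_iff M ι τ (fun p => (β p).1) (fun k => (α k).1) t C]
    intro p i
    refine (h1 p i).trans (Finset.sum_congr rfl fun q _ => ?_)
    exact congrArg (fun z => C p q • (DL.evT τ ι ((α q.1 : Fin n → E ⊗[ℚ] F) i) ⊗ₜ[ℚ] z))
      (ht q.2).symm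

theorem deligneFor_iff (M : Motive) (ι : F →+* ℂ) (c : GQ F) (L : (GQ F → ℂ) → ℂ → ℂ)
    (ρ : Representation E (GQ F) (Fin n → E)) :
    DeligneFor M ι c L ρ ↔ DL.DeligneFor (toDL M) ι c L ρ := by
  refine exists_congr fun x => ?_
  rw [isPeriod_iff]
  rfl

theorem deligneAll_of (M : Motive) (ι : F →+* ℂ) (c : GQ F) (L : (GQ F → ℂ) → ℂ → ℂ)
    (ρ : Representation E (GQ F) (Fin n → E))
    (h : DL.DeligneAll (toDL M) ι c L ρ) : DeligneAll M ι c L ρ := by
  refine ⟨?_, fun x hx => ?_⟩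
  · obtain ⟨x, hx⟩ := h.1
    exact ⟨x, (isPeriod_iff M ι c ρ x).mpr hx⟩
  · exact h.2 x ((isPeriod_iff M ι c ρ x).mp hx)

end

end Pool.Agent.K7.H1.DM
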