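import Mathlib
import Pool.Agent.R389.Defs
import Pool.Agent.H302R2.QF

/-!
# Pure motives over `ℚ`, their twists by Artin motives, and Deligne's periods

The definitions which are used in the statements of the results on Deligne's conjecture. The
realizations of a motive are given in rational bases.
-/

set_option autoImplicit false

namespace Pool.Agent.K7.H1.DM

open scoped TensorProduct
open Pool.Agent.H541R3.ART Pool.Agent.R389 Filter Topology

noncomputable section

/-- The Betti and de Rham realizations `ℚ^d` of a pure motive over `ℚ`, with respect to rational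
bases. -/
structure Realizations where
  /-- the weight -/
  w : ℤ
  /-- the dimension -/
  d : ℕ
  /-- the matrix of the involution `F_∞` of the Betti realization -/
  frob : Matrix (Fin d) (Fin d) ℚ
  /-- the Hodge decomposition of the complexification of the Betti realization, `H p` is
  `H^{p, w - p}` -/
  H : ℤ → Submodule ℂ (Fin d → ℂ)
  /-- the Hodge filtration of the de Rham realization -/
  Fil : ℤ → Submodule ℚ (Fin d → ℚ)
  /-- the matrix of the comparison isomorphism from the complexification of the Betti realization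
  to the complexification of the de Rham realization -/
  I : Matrix (Fin d) (Fin d) ℂ

/-- complex conjugation of the coordinates -/
def conj {d : ℕ} (x : Fin d → ℂ) : Fin d → ℂ := fun k => starRingEnd ℂ (x k)

/-- `F_∞` on the complexification of the Betti realization -/
def Realizations.frobC (M : Realizations) (x : Fin M.d → ℂ) : Fin M.d → ℂ :=
  (M.frob.map (fun q => (q : ℂ))).mulVec x

/-- the comparison isomorphism -/
def Realizations.comparison (M : Realizations) (x : Fin M.d → ℂ) : Fin M.d → ℂ := M.I.mulVec x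

/-- the Hodge filtration of the complexification of the Betti realization -/
def Realizations.F (M : Realizations) (p : ℤ) : Submodule ℂ (Fin M.d → ℂ) :=
  ⨆ q : {q : ℤ // p ≤ q}, M.H q

/-- the complexification of the Hodge filtration of the de Rham realization -/
def Realizations.FilC (M : Realizations) (p : ℤ) : Submodule ℂ (Fin M.d → ℂ) :=
  Submodule.span ℂ {x | ∃ v ∈ M.Fil p, x = fun k => ((v k : ℚ) : ℂ)}

/-- **Pure motives over `ℚ`**: the complexification of the Betti realization is the direct sum of
the `H p`; `F_∞` and complex conjugation exchange `H^{p, q}` and `H^{q, p}`, and the comparison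
isomorphism is compatible with the Hodge filtrations and with complex conjugation, which is `F_∞`
times the conjugation of the coefficients on the Betti side. -/
structure Motive extends Realizations where
  frob_frob : frob * frob = 1
  internal : DirectSum.IsInternal H
  H_frob : ∀ p, ∀ x ∈ H p, toRealizations.frobC x ∈ H (w - p)
  H_conj : ∀ p, ∀ x ∈ H p, conj x ∈ H (w - p)
  bijective : Function.Bijective toRealizations.comparison
  filtration : ∀ p x, toRealizations.comparison x ∈ toRealizations.FilC p ↔ x ∈ toRealizations.F p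
  conjugation : ∀ x, toRealizations.comparison (conj (toRealizations.frobC x))
    = conj (toRealizations.comparison x)

/-- The motive is critical, and `H^{p, p} = 0` for all `p` (so that all its twists by Artin motives
are critical). -/
structure Motive.Critical (M : Motive) : Prop where
  offDiagonal : ∀ p, M.H p ≠ ⊥ → M.w ≠ 2 * p
  critical : ∀ p, M.H p ≠ ⊥ → min p (M.w - p) ≤ -1 ∧ 0 ≤ max p (M.w - p)

section bases

variable {E Y κ : Type} [Field E] [AddCommGroup Y] [Module E Y]

/-- `a` is an `E`-basis of the subspace of the elements with the property `p` -/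
def IsBasisOf (E : Type) {Y κ : Type} [Field E] [AddCommGroup Y] [Module E Y] (p : Y → Prop)
    (a : κ → Y) : Prop :=
  (∀ k, p (a k)) ∧ LinearIndependent E a ∧ ∀ y, p y → y ∈ Submodule.span E (Set.range a)

/-- `t` is a basis of `ℚ^d` modulo the subspace `U` -/
def IsBasisMod {d h : ℕ} (U : Submodule ℚ (Fin d → ℚ)) (t : Fin h → Fin d → ℚ) : Prop :=
  ∀ v, ∃! r : Fin h → ℚ, v - ∑ k, r k • t k ∈ U

end bases

section artin

/-- the Galois group of a number field -/
abbrev GQ (F : Type) [Field F] [NumberField F] : Type := F ≃ₐ[ℚ] F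

variable {F : Type} [Field F] [NumberField F] {E : Type} [Field E] [CharZero E] {n : ℕ}

/-- `c` is complex conjugation for the embedding `ι` of `F` -/
def IsConj (ι : F →+* ℂ) (c : GQ F) : Prop := ∀ x, ι (c x) = starRingEnd ℂ (ι x)

/-- the entries of the matrix of `ρ g` -/
def mat (ρ : Representation E (GQ F) (Fin n → E)) (g : GQ F) (i j : Fin n) : E :=
  ρ g (Pi.single j 1) i

/-- the action of the Galois group on the second factor of `E ⊗ F` -/
def gal (g : GQ F) (a : E ⊗[ℚ] F) : E ⊗[ℚ] F := g.toLinearMap.lTensor E a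

/-- the action of the Galois group on `E^n ⊗ F`, where `ρ` is the action on `E^n` -/
def act (ρ : Representation E (GQ F) (Fin n → E)) (g : GQ F) (a : Fin n → E ⊗[ℚ] F) :
    Fin n → E ⊗[ℚ] F :=
  fun i => ∑ j, mat ρ g i j • gal g (a j)

/-- the elements of `E^n ⊗ F` which are fixed by the Galois group; they form the de Rham
realization of the Artin motive of `ρ` -/
def DeRham (ρ : Representation E (GQ F) (Fin n → E)) (a : Fin n → E ⊗[ℚ] F) : Prop :=
  ∀ g, act ρ g a = a

/-- the homomorphism `E ⊗ F → ℂ` given by embeddings of `E` and `F` -/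
def ev (τ : E →+* ℂ) (ι : F →+* ℂ) (x : E ⊗[ℚ] F) : ℂ :=
  Algebra.TensorProduct.lift τ.toRatAlgHom ι.toRatAlgHom (fun _ _ => Commute.all _ _) x

/-- the elements of the Betti realization `E^n ⊗ ℚ^d` of `M ⊗ ρ` which are fixed by `F_∞`; the
element `c` of the Galois group is complex conjugation -/
def BettiPlus (M : Motive) (c : GQ F) (ρ : Representation E (GQ F) (Fin n → E))
    (x : Fin n → Fin M.d → E) : Prop :=
  ∀ i k, ∑ j, ∑ l, mat ρ c i j * (M.frob k l : E) * x j l = x i k

/-- `C` is the matrix of the comparison map with respect to the bases `b` and `a ⊗ t` -/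
def IsMatrix {h : ℕ} (M : Motive) (ι : F →+* ℂ) (τ : E →+* ℂ)
    (b : Fin n × Fin h → Fin n → Fin M.d → E) (a : Fin n → Fin n → E ⊗[ℚ] F)
    (t : Fin h → Fin M.d → ℚ) (C : Matrix (Fin n × Fin h) (Fin n × Fin h) ℂ) : Prop :=
  ∀ p i, (fun k => M.comparison (fun l => τ (b p i l)) k
    - ∑ q, C p q * ev τ ι (a q.1 i) * (t q.2 k : ℂ)) ∈ M.FilC 0

/-- **Deligne's periods of `M ⊗ ρ`**, for all embeddings `τ` of the field of coefficients `E`: `x τ`
is the determinant of the comparison map from the complexification of the part of the Betti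
realization fixed by `F_∞` to the complexification of `(E^n ⊗ F)^G ⊗ M_dR / F^0`, with respect to
bases `b` and `a ⊗ t` over `E`. They are well defined up to a common factor `e ≠ 0` in `E`. -/
def IsPeriod (M : Motive) (ι : F →+* ℂ) (c : GQ F)
    (ρ : Representation E (GQ F) (Fin n → E)) (x : (E →+* ℂ) → ℂ) : Prop :=
  ∃ (h : ℕ) (b : Fin n × Fin h → Fin n → Fin M.d → E) (a : Fin n → Fin n → E ⊗[ℚ] F)
    (t : Fin h → Fin M.d → ℚ), IsBasisOf E (BettiPlus M c ρ) b ∧ IsBasisOf E (DeRham ρ) a ∧
      IsBasisMod (M.Fil 0) t ∧ ∀ τ : E →+* ℂ, ∃ C, IsMatrix M ι τ b a t C ∧ x τ = C.det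

end artin

section lfun

variable {G : Type} [Group G]

/-- the product of the `L χ s ^ m χ` over the irreducible characters `χ` of `G`; this is the
L-function of `M ⊗ ρ`, where `m` are the multiplicities of `ρ` -/
def Lprod (L : (G → ℂ) → ℂ → ℂ) (m : (G → ℂ) → ℕ) (s : ℂ) : ℂ := ∏ᶠ χ ∈ Irr G, L χ s ^ m χ

/-- the order of vanishing at `s = 0` -/
def ordL (L : (G → ℂ) → ℂ → ℂ) (m : (G → ℂ) → ℕ) : WithTop ℤ := meromorphicOrderAt (Lprod L m) 0

/-- all functions `L χ` are meromorphic at `s = 0` and not identically zero near `s = 0` -/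
def Mero (L : (G → ℂ) → ℂ → ℂ) : Prop :=
  ∀ χ ∈ Irr G, MeromorphicAt (L χ) 0 ∧ meromorphicOrderAt (L χ) 0 ≠ ⊤

/-- the multiplicities of the regular representation -/
def IsDegree (deg : (G → ℂ) → ℕ) : Prop := ∀ χ ∈ Irr G, χ 1 = deg χ

/-- the order at `s = 0` of the product of the `L χ s ^ χ(1)` over the irreducible characters `χ`
which are multiples of the linear character `lam` on the subgroup `K` -/
def ordOn (L : (G → ℂ) → ℂ → ℂ) (deg : (G → ℂ) → ℕ) (K : Subgroup G) (lam : G →* ℂˣ) :
    WithTop ℤ :=
  meromorphicOrderAt (fun s => ∏ᶠ χ ∈ {χ ∈ Irr G | ∀ k ∈ K, χ k = χ 1 * ((lam k : ℂˣ) : ℂ)},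
    L χ s ^ deg χ) 0

/-- the L-functions of the representations induced from the two-dimensional characters of the
quotients of subgroups which are quaternion groups of order 8 do not have order one -/
def NoQuaternion (L : (G → ℂ) → ℂ → ℂ) : Prop :=
  ∀ (H : Subgroup G) (f : H →* QuaternionGroup 2), Function.Surjective f →
    ∀ m : (G → ℂ) → ℕ, IsDecomp (ind H (fun h => Pool.Agent.H302R2.quatChar (f h))) m →
      ordL L m ≠ 1

/-- the order of the L-function of the regular representation is smaller than the order of the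
L-function of the representation induced from the linear character `lam` of `N` plus `p`, for all
prime divisors `p` of the order of `N` -/
def Growth (L : (G → ℂ) → ℂ → ℂ) (deg : (G → ℂ) → ℕ) (N : Subgroup G) (lam : N →* ℂˣ) : Prop :=
  ∀ m : (G → ℂ) → ℕ, IsDecomp (ind N (fun x => ((lam x : ℂˣ) : ℂ))) m →
    ∀ p : ℕ, p.Prime → p ∣ Nat.card N → ordL L deg < ordL L m + p

variable {E : Type} [Field E] {n : ℕ}

/-- `ρ` is the representation induced from the linear character `ψ` of `U` -/
def IsMonomial (ρ : Representation E G (Fin n → E)) (U : Subgroup G) (ψ : U →* Eˣ) : Prop :=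
  ρ.character = ind U (fun u => ((ψ u : Eˣ) : E))

/-- the commutators of `N` act trivially -/
def TrivialOnCommutators (N : Subgroup G) (σ : Representation E G (Fin n → E)) : Prop :=
  ∀ k ∈ ⁅N, N⁆, ∀ w, σ k w = w

/-- The multiplicities of the irreducible complex characters in `τ ρ` are `m`. -/
def IsMult (ρ : Representation E G (Fin n → E)) (τ : E →+* ℂ) (m : (G → ℂ) → ℕ) : Prop :=
  IsDecomp (fun g => τ (ρ.character g)) m

/-- there is an element `e` of `E` such that the value at `s = 0` of the L-function of `M ⊗ τ ρ` is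
`τ e * x τ`, for all embeddings `τ` of `E` -/
def ValueIs (L : (G → ℂ) → ℂ → ℂ) (ρ : Representation E G (Fin n → E)) (x : (E →+* ℂ) → ℂ) :
    Prop :=
  ∃ e : E, ∀ (τ : E →+* ℂ) (m : (G → ℂ) → ℕ), IsMult ρ τ m →
    Tendsto (Lprod L m) (𝓝[≠] 0) (𝓝 (τ e * x τ))

end lfun

section conjecture

variable {F : Type} [Field F] [NumberField F] {E : Type} [Field E] [CharZero E] {n : ℕ}

/-- **Deligne's conjecture for `M ⊗ ρ`**, for some period. -/
def DeligneFor (M : Motive) (ι : F →+* ℂ) (c : GQ F) (L : (GQ F → ℂ) → ℂ → ℂ)
    (ρ : Representation E (GQ F) (Fin n → E)) : Prop :=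
  ∃ x, IsPeriod M ι c ρ x ∧ ValueIs L ρ x

/-- **Deligne's conjecture for `M ⊗ ρ`**: periods exist, and the formula holds for all of them. -/
def DeligneAll (M : Motive) (ι : F →+* ℂ) (c : GQ F) (L : (GQ F → ℂ) → ℂ → ℂ)
    (ρ : Representation E (GQ F) (Fin n → E)) : Prop :=
  (∃ x, IsPeriod M ι c ρ x) ∧ ∀ x, IsPeriod M ι c ρ x → ValueIs L ρ x

/-- Deligne's conjecture for the monomial twists `M ⊗ Ind_U^G ψ` with coefficients in `E`, for the
subgroups `U` of the Galois group with the property `P` -/
def MonomialTwists (M : Motive) (ι : F →+* ℂ) (c : GQ F) (L : (GQ F → ℂ) → ℂ → ℂ)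
    (E : Type) [Field E] [CharZero E] (P : (U : Type) → [Group U] → Prop) : Prop :=
  ∀ (U : Subgroup (GQ F)) (ψ : U →* Eˣ) (n : ℕ) (ρ : Representation E (GQ F) (Fin n → E)),
    P U → IsMonomial ρ U ψ → DeligneFor M ι c L ρ

end conjecture

end

end Pool.Agent.K7.H1.DM
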