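import Pool.Agent.K7.H1.DM.Bridge
import Pool.Agent.R389.Main
import Pool.Agent.R389.TwoMain
import Pool.Agent.R389.SmallMain

/-!
# Deligne's conjecture for Artin twists: the theorems
-/

set_option autoImplicit false
set_option linter.unusedSectionVars false

namespace Pool.Agent.K7.H1.DM

open scoped TensorProduct
open Module Filter Topology
open Pool.Agent.H302R2 Pool.Agent.H541R3.ART Pool.Agent.R389 Pool.Agent.W446.AS

section

variable {F : Type} [Field F] [NumberField F] [IsGalois ℚ F] {E : Type} [Field E] [NumberField E]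

omit [IsGalois ℚ F] in
lemma Lprod_congr {G : Type} [Group G] [Finite G] (L : (G → ℂ) → ℂ → ℂ) {f : G → ℂ}
    {m m' : (G → ℂ) → ℕ} (h : IsDecomp f m) (h' : IsDecomp f m') : Lprod L m = Lprod L m' := by
  funext s
  rw [Lprod, Lprod, finprod_irr (fun χ => L χ s ^ m' χ), finprod_irr (fun χ => L χ s ^ m χ)]
  refine Finset.prod_congr rfl fun χ hχ => ?_
  rw [DL.decomp_unique h h' (mem_irrF.mp hχ)]

/-- rational coefficients, order at most two -/
theorem thm_rat {M : Motive} (hM : M.Critical) {ι : F →+* ℂ} {c : GQ F}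
    (hc : IsConj ι c) {ζ : E} (hζ : IsPrimitiveRoot ζ (Monoid.exponent (GQ F)))
    {L : (GQ F → ℂ) → ℂ → ℂ} (hL : Mero L)
    (hmon : MonomialTwists M ι c L E (fun _ => True))
    {deg : (GQ F → ℂ) → ℕ} (hdeg : IsDegree deg) (hz : ordL L deg ≤ 2)
    {n : ℕ} (ρ : Representation ℚ (GQ F) (Fin n → ℚ)) {m : (GQ F → ℂ) → ℕ}
    (hm : IsMult ρ (algebraMap ℚ ℂ) m) (hpole : 0 ≤ ordL L m) :
    DeligneAll M ι c L ρ := by
  obtain ⟨h, t, b, hb, hdet⟩ := DL.betti (toDL_critical hM)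
  have hc2 : c * c = 1 := DL.c_sq hc
  have hm' : IsDecomp (fun g => ((ρ.character g : ℚ) : ℂ)) m := hm
  have key := DL.of_deligne_rat (E := E) (M := toDL M) (t := t) (L := L) hb hdet hc2 hζ hm' (by
    refine main_rat hζ hL (fun τ χ _ => DL.PP_ne (hdet true) (hdet false) h ι c τ χ)
      (fun U ψ => ?_) hdeg hz ρ hm' hpole
    refine DL.mon_deligne hb hdet hc2 hζ fun n ρ hρ => ?_
    exact (deligneFor_iff M ι c L ρ).mp (hmon U ψ n ρ trivial hρ))
  refine deligneAll_of M ι c L ρ ⟨key.1, fun x hx => ?_⟩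
  obtain ⟨q, hq⟩ := key.2 x hx
  refine ⟨q, fun τ m' hm'' => ?_⟩
  have hτ : τ = algebraMap ℚ ℂ := Subsingleton.elim _ _
  subst hτ
  have h2 : Lprod L m' = Lprod L m := Lprod_congr L hm'' hm
  change Tendsto (Lprod L m') (𝓝[≠] 0) _
  rw [h2]
  exact hq

/-- order at most two, coefficients in `E` -/
theorem thm_two {M : Motive} (hM : M.Critical) {ι : F →+* ℂ} {c : GQ F}
    (hc : IsConj ι c) {ζ : E} (hζ : IsPrimitiveRoot ζ (Monoid.exponent (GQ F)))
    {L : (GQ F → ℂ) → ℂ → ℂ} (hL : Mero L)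
    (hmon : MonomialTwists M ι c L E (fun _ => True))
    {deg : (GQ F → ℂ) → ℕ} (hdeg : IsDegree deg) (hz : ordL L deg ≤ 2)
    (hquat : NoQuaternion L)
    {n : ℕ} (ρ : Representation E (GQ F) (Fin n → E)) : DeligneAll M ι c L ρ := by
  obtain ⟨h, t, b, hb, hdet⟩ := DL.betti (toDL_critical hM)
  obtain ⟨τ₀⟩ : Nonempty (E →+* ℂ) := inferInstance
  have hc2 : c * c = 1 := DL.c_sq hc
  refine deligneAll_of M ι c L ρ ?_
  refine DL.of_deligne (M := toDL M) (t := t) (L := L) hb hc2 hζ ?_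
  refine main_two (ρ := ρ) hζ (fun _ => hL)
    (fun τ χ _ => DL.PP_ne (hdet true) (hdet false) h ι c τ χ) (fun U ψ => ?_) τ₀ hdeg hz hquat
  refine DL.mon_deligne hb hdet hc2 hζ fun n ρ hρ => ?_
  exact (deligneFor_iff M ι c L ρ).mp (hmon U ψ n ρ trivial hρ)

/-- zeros from a field of prime power degree -/
theorem thm_old {M : Motive} (hM : M.Critical) {ι : F →+* ℂ} {c : GQ F}
    (hc : IsConj ι c) {ζ : E} (hζ : IsPrimitiveRoot ζ (Monoid.exponent (GQ F)))
    {L : (GQ F → ℂ) → ℂ → ℂ} (hL : Mero L)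
    (hmon : MonomialTwists M ι c L E Hyper)
    {deg : (GQ F → ℂ) → ℕ} (hdeg : IsDegree deg) {p : ℕ} (hp : p.Prime)
    (K : Subgroup (GQ F)) [K.Normal] (hQ : IsPGroup p (GQ F ⧸ K))
    (lam : GQ F →* ℂˣ) (hz : ordL L deg ≤ max 1 (ordOn L deg K lam))
    {n : ℕ} (ρ : Representation E (GQ F) (Fin n → E)) : DeligneAll M ι c L ρ := by
  obtain ⟨h, t, b, hb, hdet⟩ := DL.betti (toDL_critical hM)
  obtain ⟨τ₀⟩ : Nonempty (E →+* ℂ) := inferInstance
  have hc2 : c * c = 1 := DL.c_sq hc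
  refine deligneAll_of M ι c L ρ ?_
  refine DL.of_deligne (M := toDL M) (t := t) (L := L) hb hc2 hζ ?_
  refine main (ρ := ρ) hζ (fun _ => hL)
    (fun τ χ _ => DL.PP_ne (hdet true) (hdet false) h ι c τ χ) (fun U ψ hU => ?_) τ₀ hdeg hp K hQ
    lam hz
  refine DL.mon_deligne hb hdet hc2 hζ fun n ρ hρ => ?_
  exact (deligneFor_iff M ι c L ρ).mp (hmon U ψ n ρ hU hρ)

/-- small growth -/
theorem thm_small {M : Motive} (hM : M.Critical) {ι : F →+* ℂ} {c : GQ F}
    (hc : IsConj ι c) {ζ : E} (hζ : IsPrimitiveRoot ζ (Monoid.exponent (GQ F)))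
    {L : (GQ F → ℂ) → ℂ → ℂ} (hL : Mero L)
    (hmon : MonomialTwists M ι c L E Group.IsSolvable)
    {deg : (GQ F → ℂ) → ℕ} (hdeg : IsDegree deg)
    (N : Subgroup (GQ F)) [N.Normal] (hN : Group.IsSolvable N) (lam : N →* ℂˣ)
    (hz : Growth L deg N lam)
    (hold : ∀ (n : ℕ) (σ : Representation E (GQ F) (Fin n → E)),
      TrivialOnCommutators N σ → DeligneFor M ι c L σ)
    {n : ℕ} (ρ : Representation E (GQ F) (Fin n → E)) : DeligneAll M ι c L ρ := by
  obtain ⟨h, t, b, hb, hdet⟩ := DL.betti (toDL_critical hM)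
  obtain ⟨τ₀⟩ : Nonempty (E →+* ℂ) := inferInstance
  have hc2 : c * c = 1 := DL.c_sq hc
  refine deligneAll_of M ι c L ρ ?_
  refine DL.of_deligne (M := toDL M) (t := t) (L := L) hb hc2 hζ ?_
  obtain ⟨m, hm⟩ := ind_isDecomp (G := GQ F) N lam
  refine main_small (ρ := ρ) hζ (fun _ => hL)
    (fun τ χ _ => DL.PP_ne (hdet true) (hdet false) h ι c τ χ) (fun U ψ hU => ?_) τ₀ hdeg N hN lam hm
    (hz m hm) ?_
  · refine DL.mon_deligne hb hdet hc2 hζ fun n ρ hρ => ?_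
    exact (deligneFor_iff M ι c L ρ).mp (hmon U ψ n ρ hU hρ)
  · intro W _ _ _ σ hσ
    obtain ⟨k, σ', h1, h2⟩ := DL.exists_fin_rep' σ
    rw [← h1]
    refine DL.to_deligne hb hdet hc2 hζ ?_
    refine (deligneFor_iff M ι c L σ').mp (hold k σ' fun g hg w => ?_)
    have h3 := h2 g 1 (fun w => by rw [hσ g hg w, one_smul]) w
    rw [one_smul] at h3
    exact h3

end

end Pool.Agent.K7.H1.DM
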